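import Mathlib

set_option autoImplicit false

namespace Pool.Agent.H.MP_6859a2_co

/-- no induced `K_{1,3}` -/
def ClawFree {V : Type} (G : SimpleGraph V) : Prop :=
  ∀ x a b c, G.Adj x a → G.Adj x b → G.Adj x c → a ≠ b → a ≠ c → b ≠ c →
    G.Adj a b ∨ G.Adj a c ∨ G.Adj b c

/-- more than `c` vertices, and connected after deleting fewer than `c` vertices -/
def Conn {V : Type} [Fintype V] (G : SimpleGraph V) (c : ℕ) : Prop :=
  c < Fintype.card V ∧ ∀ S : Finset V, S.card < c → (G.induce (↑S : Set V)ᶜ).Connected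

/-- pairwise vertex-disjoint cycles `C i` with `v i` on `C i` -/
def Separated {V : Type} (G : SimpleGraph V) {k : ℕ} (v : Fin k → V) : Prop :=
  ∃ (b : Fin k → V) (C : ∀ i, G.Walk (b i) (b i)), (∀ i, (C i).IsCycle) ∧
    (∀ i, v i ∈ (C i).support) ∧ ∀ i j, i ≠ j → ∀ x, x ∈ (C i).support → x ∉ (C j).support

/-- in every `c`-connected claw-free graph any `k` distinct vertices are separated -/
def Suffices (k c : ℕ) : Prop :=
  ∀ (V : Type) [Fintype V] (G : SimpleGraph V), ClawFree G → Conn G c →
    ∀ v : Fin k → V, Function.Injective v → Separated G v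

end Pool.Agent.H.MP_6859a2_co
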